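import Pool.Agent.Lib.MP_49fa77_co.H30.Iface

/-!
# Module SP: short distances are realised by paths of short Delaunay edges
-/

set_option autoImplicit false

namespace FT58.AS.H05

open Real MeasureTheory Set Metric Filter Relation FT58 FT58.AS

/-- Gabriel edges are Delaunay edges. -/
lemma gabriel {S : Finset ℂ} {c q : ℂ} (h : ∀ r ∈ S, r ≠ c → r ≠ q → 0 < DD c q r) :
    Ed S c q := by
  have key : ∀ c q : ℂ, (∀ r ∈ S, r ≠ c → r ≠ q → 0 < DD c q r) → 0 < al S c q := by
    intro c q h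
    rw [lt_al_iff]
    refine ⟨by positivity, fun r hr hX => ?_⟩
    have hne := ne_of_XX_pos hX
    exact arctan_pos.mpr (div_pos (h r hr hne.2.2 hne.2.1.symm) hX)
  have h1 := key c q h
  have h2 := key q c (fun r hr h3 h4 => by rw [DD_swap]; exact h r hr h4 h3)
  unfold Ed
  linarith

lemma norm_DD (x y r : ℂ) : ‖y - x‖ ^ 2 = ‖r - x‖ ^ 2 + ‖y - r‖ ^ 2 - 2 * DD x y r := by
  rw [norm_sq_eq, norm_sq_eq, norm_sq_eq]
  simp only [DD, dt, Complex.sub_re, Complex.sub_im]
  ring

open Classical in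
lemma aux (S : Finset ℂ) (n : ℕ) : ∀ x ∈ S, ∀ y ∈ S,
    ((S ×ˢ S).filter (fun p => ‖p.2 - p.1‖ < ‖y - x‖)).card < n → Sh x y →
      ReflTransGen (Hs S) x y := by
  induction n with
  | zero => intro x _ y _ h; omega
  | succ n ih =>
    intro x hx y hy hc hs
    by_cases hxy : x = y
    · rw [hxy]
    by_cases hG : ∀ r ∈ S, r ≠ x → r ≠ y → 0 < DD x y r
    · exact ReflTransGen.single ⟨hx, hy, hxy, gabriel hG, hs⟩
    · push Not at hG
      obtain ⟨r, hr, hrx, hry, hD⟩ := hG
      have hid := norm_DD x y r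
      have h1 : 0 < ‖r - x‖ := norm_pos_iff.mpr (sub_ne_zero.mpr hrx)
      have h2 : 0 < ‖y - r‖ := norm_pos_iff.mpr (sub_ne_zero.mpr hry.symm)
      have h0 := norm_nonneg (y - x)
      have l1 : ‖r - x‖ < ‖y - x‖ := by
        have : 0 < ‖y - r‖ ^ 2 := by positivity
        exact lt_of_pow_lt_pow_left₀ 2 h0 (by linarith)
      have l2 : ‖y - r‖ < ‖y - x‖ := by
        have : 0 < ‖r - x‖ ^ 2 := by positivity
        exact lt_of_pow_lt_pow_left₀ 2 h0 (by linarith)
      have step : ∀ a ∈ S, ∀ b ∈ S, ‖b - a‖ < ‖y - x‖ → ReflTransGen (Hs S) a b := by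
        intro a ha b hb hl
        refine ih a ha b hb ?_ (lt_trans hl hs)
        have : ((S ×ˢ S).filter (fun p => ‖p.2 - p.1‖ < ‖b - a‖)).card
            < ((S ×ˢ S).filter (fun p => ‖p.2 - p.1‖ < ‖y - x‖)).card := by
          apply Finset.card_lt_card
          rw [Finset.ssubset_iff_of_subset]
          · refine ⟨(a, b), ?_, ?_⟩
            · exact Finset.mem_filter.mpr ⟨Finset.mem_product.mpr ⟨ha, hb⟩, hl⟩
            · intro h
              exact lt_irrefl _ (Finset.mem_filter.mp h).2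
          · intro p hp
            rw [Finset.mem_filter] at hp ⊢
            exact ⟨hp.1, lt_trans hp.2 hl⟩
        omega
      exact (step x hx r hr l1).trans (step r hr y hy l2)

theorem sp_st : SpS := by
  intro S x hx y hy h
  classical
  exact aux S _ x hx y hy (Nat.lt_succ_self _) h

end FT58.AS.H05
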